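import Pool.Agent.Lib_helper4.AmProof

/-!
# A uniform bound for `p`-amenability constants

`A p q n` is `A_p^q(n)`; it and the notions it rests on (`IsRMetric`, `PBanach`, `freeNorm`, `am`)
are defined in `Pool.Agent.Lib_helper4.AmDefs`.
-/

open scoped ENNReal

namespace Pool.Agent.Results.MP_31efb7_an.AmenabilityBound

open Pool.Agent.Lib_helper4.Amenability

/-- For `0 < p ≤ q ≤ 1` the inequality `sup_n A_p^q(n) ≤ 2^(1/q)` holds if and only if `p = 1`.
In particular it fails for every `p < 1` and every `q` with `p ≤ q ≤ 1`. -/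
theorem result (p q : ℝ) (hp : 0 < p) (hpq : p ≤ q) (hq : q ≤ 1) :
    (⨆ n : ℕ, A p q n) ≤ (2 : ℝ≥0∞) ^ (1 / q) ↔ p = 1 :=
  main_iff p q hp hpq hq

end Pool.Agent.Results.MP_31efb7_an.AmenabilityBound
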